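import Pool.Agent.H34.CGS.Stmts

set_option autoImplicit false

noncomputable section

namespace Pool.CGS

open Pool.CGR

theorem cgt_thm : CGTStmt := by
  intro α A _ _ _ τ hτ x i a w
  unfold cg dv
  rw [Finset.sum_mul, map_sum, map_sum]
  refine Finset.sum_congr rfl fun k _ => ?_
  split_ifs with h
  · have e : ev x (w.drop (k + 1) ++ w.take k) = ev x (w.drop (k + 1)) * ev x (w.take k) := by
      simp [ev]
    first
      | rw [e, mul_assoc, hτ]
      | rw [mul_assoc, hτ]
  · simp

end Pool.CGS
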