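import Pool.Agent.H34.CGS.Stmts

set_option autoImplicit false

noncomputable section

namespace Pool.CGS

open Pool.CGR

namespace TWO66

variable {A : Type} [CStarAlgebra A] {τ : A →ₗ[ℂ] ℂ}

theorem herm (hτ : IsTrace τ) (x y : A) :
    (starRingEnd ℂ) (τ (star y * x)) = τ (star x * y) := by
  have h1 := (hτ.pos (x + y)).2
  have h2 := (hτ.pos (x + Complex.I • y)).2
  have hx := (hτ.pos x).2
  have hy := (hτ.pos y).2
  have e1 : τ (star (x + y) * (x + y)) =
      τ (star x * x) + τ (star x * y) + (τ (star y * x) + τ (star y * y)) := by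
    simp only [star_add, add_mul, mul_add, map_add]
    ring
  have e2 : τ (star (x + Complex.I • y) * (x + Complex.I • y)) =
      τ (star x * x) + Complex.I * τ (star x * y) +
        (-Complex.I * τ (star y * x) + τ (star y * y)) := by
    have : star (x + Complex.I • y) * (x + Complex.I • y) = star x * x +
        Complex.I • (star x * y) + ((-Complex.I) • (star y * x) + star y * y) := by
      rw [star_add, star_smul, add_mul, mul_add, mul_add, smul_mul_assoc, smul_mul_assoc,
        mul_smul_comm, mul_smul_comm, smul_smul]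
      have : star Complex.I = -Complex.I := by simp
      rw [this]
      simp
    rw [this]
    simp only [map_add, map_smul, smul_eq_mul]
  rw [e1] at h1
  rw [e2] at h2
  simp only [Complex.add_im, Complex.mul_im, Complex.I_re, Complex.I_im, Complex.neg_re,
    Complex.neg_im] at h1 h2
  apply Complex.ext
  · rw [Complex.conj_re]; linarith
  · rw [Complex.conj_im]; linarith

/-- the form of `L²` -/
abbrev core (hτ : IsTrace τ) : PreInnerProductSpace.Core ℂ A where
  inner a b := τ (star a * b)
  conj_inner_symm x y := herm hτ x y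
  re_inner_nonneg x := (hτ.pos x).1
  add_left x y z := by simp [add_mul]
  smul_left x y r := by simp

theorem cs (hτ : IsTrace τ) (x y : A) :
    ‖τ (star x * y)‖ ^ 2 ≤ (τ (star x * x)).re * (τ (star y * y)).re := by
  have h := @InnerProductSpace.Core.inner_mul_inner_self_le ℂ A _ _ _ (core hτ) x y
  have h' : ‖τ (star x * y)‖ * ‖τ (star y * x)‖ ≤ (τ (star x * x)).re * (τ (star y * y)).re := h
  have e : ‖τ (star y * x)‖ = ‖τ (star x * y)‖ := by
    rw [← herm hτ x y, RCLike.norm_conj]
  rw [e] at h'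
  rw [sq]
  exact h'

theorem n2_nonneg (a : A) : 0 ≤ n2 τ a := Real.sqrt_nonneg _

theorem n2_sq (hτ : IsTrace τ) (a : A) : n2 τ a ^ 2 = (τ (star a * a)).re :=
  Real.sq_sqrt (hτ.pos a).1

theorem cs2 (hτ : IsTrace τ) (x y : A) : ‖τ (star x * y)‖ ≤ n2 τ x * n2 τ y := by
  have h := cs hτ x y
  rw [← n2_sq hτ, ← n2_sq hτ, ← mul_pow] at h
  exact abs_le_of_sq_le_sq' h (mul_nonneg (n2_nonneg _) (n2_nonneg _)) |>.2

theorem n2_star (hτ : IsTrace τ) (a : A) : n2 τ (star a) = n2 τ a := by
  unfold n2
  rw [star_star, hτ.comm]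

end TWO66

open TWO66

theorem two_thm : TWOStmt := by
  intro A _ τ hτ
  refine ⟨fun a b => ?_, fun a b => ?_, fun a => ⟨n2_nonneg a, ?_, n2_star hτ a, ?_⟩, fun a => ?_,
    fun r a => ?_⟩
  · have h := cs2 hτ (star a) b
    rwa [star_star, n2_star hτ] at h
  · have h := cs2 hτ a b
    have hre : (τ (star a * b)).re ≤ n2 τ a * n2 τ b := (Complex.re_le_norm _).trans h
    have hs : (τ (star b * a)).re = (τ (star a * b)).re := by
      rw [← herm hτ a b, Complex.conj_re]
    have e : (τ (star (a + b) * (a + b))).re =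
        n2 τ a ^ 2 + n2 τ b ^ 2 + 2 * (τ (star a * b)).re := by
      have : τ (star (a + b) * (a + b)) =
          τ (star a * a) + τ (star a * b) + (τ (star b * a) + τ (star b * b)) := by
        simp only [star_add, add_mul, mul_add, map_add]
        ring
      rw [this, n2_sq hτ, n2_sq hτ]
      simp only [Complex.add_re]
      rw [hs]
      ring
    have h0 := n2_nonneg (τ := τ) a
    have h1 := n2_nonneg (τ := τ) b
    have hsq : n2 τ (a + b) ^ 2 ≤ (n2 τ a + n2 τ b) ^ 2 := by
      rw [n2_sq hτ, e]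
      nlinarith
    exact abs_le_of_sq_le_sq' hsq (add_nonneg h0 h1) |>.2
  · have h : n2 τ a ^ 2 ≤ ‖a‖ ^ 2 := by
      rw [n2_sq hτ]
      calc (τ (star a * a)).re ≤ ‖τ (star a * a)‖ := Complex.re_le_norm _
        _ ≤ ‖star a * a‖ := hτ.norm _
        _ = ‖a‖ ^ 2 := by rw [CStarRing.norm_star_mul_self, sq]
    exact abs_le_of_sq_le_sq' h (norm_nonneg _) |>.2
  · unfold n2
    simp
  · rw [n2_sq hτ, hτ.comm]
    apply Complex.ext
    · simp
    · simp [(hτ.pos a).2]
  · have e : (τ (star (r • a) * (r • a))).re = ‖r‖ ^ 2 * (τ (star a * a)).re := by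
      have : τ (star (r • a) * (r • a)) = ((‖r‖ ^ 2 : ℝ) : ℂ) * τ (star a * a) := by
        rw [star_smul, smul_mul_assoc, mul_smul_comm, smul_smul, map_smul, smul_eq_mul]
        congr 1
        have := Complex.conj_mul' r
        simpa using this
      rw [this, Complex.re_ofReal_mul]
    unfold n2
    rw [e, Real.sqrt_mul (sq_nonneg _), Real.sqrt_sq (norm_nonneg _)]

end Pool.CGS
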